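import Pool.Agent.Helper38.FD.Defs
import Pool.Agent.Helper77.RL.Goals3

/-! From `TwistGoodN` to `TwistLeopoldt`. -/

namespace Pool.Agent.Helper38.FD

open NumberField Module Pool.Agent.Helper51.SigLeo Pool.Agent.Helper77.RL

variable {K Ω k : Type} [Field K] [Field Ω] [Algebra K Ω] [NormedField k]

theorem ker_eq {χ : Chr K Ω k} {H : IntermediateField K Ω} (h : CutsOut χ H) :
    χ.ker = H.fixingSubgroup := by
  ext g
  rw [MonoidHom.mem_ker, h g, IntermediateField.mem_fixingSubgroup_iff]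

theorem isGalois_of_cutsOut [IsGalois K Ω] {χ : Chr K Ω k} {H : IntermediateField K Ω}
    (h : CutsOut χ H) : IsGalois K H := by
  rw [← InfiniteGalois.normal_iff_isGalois, ← ker_eq h]
  infer_instance

theorem exists_desc [IsGalois K Ω] {χ : Chr K Ω k} {H : IntermediateField K Ω} [IsGalois K H]
    (hle : ∀ g : Ω ≃ₐ[K] Ω, (∀ x ∈ H, g x = x) → χ g = 1) :
    ∃ χ' : (H ≃ₐ[K] H) →* kˣ, ∀ (g : Ω ≃ₐ[K] Ω) (h : H ≃ₐ[K] H),
      Restricts (algebraMap H Ω) g h → χ g = χ' h := by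
  have hs : Function.Surjective (AlgEquiv.restrictNormalHom (F := K) (K₁ := Ω) H) :=
    AlgEquiv.restrictNormalHom_surjective Ω
  have hres : ∀ (g : Ω ≃ₐ[K] Ω) (x : H), g x = (AlgEquiv.restrictNormalHom H g x : H) := by
    intro g x
    exact (AlgEquiv.restrictNormal_commutes g H x).symm
  have hk : (AlgEquiv.restrictNormalHom (F := K) (K₁ := Ω) H).ker ≤ χ.ker := by
    intro g hg
    rw [MonoidHom.mem_ker] at hg ⊢
    refine hle g fun x hx ↦ ?_
    have := hres g ⟨x, hx⟩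
    rw [hg] at this
    exact this
  refine ⟨MonoidHom.liftOfRightInverse _ (Function.surjInv hs) (Function.rightInverse_surjInv hs)
    ⟨χ, hk⟩, fun g h hr ↦ ?_⟩
  have e : AlgEquiv.restrictNormalHom H g = h := by
    ext x
    rw [← hres g x]
    exact hr x
  rw [← e]
  exact (MonoidHom.liftOfRightInverse_comp_apply _ _ (Function.rightInverse_surjInv hs)
    ⟨χ, hk⟩ g).symm

theorem exists_restricts [IsGalois K Ω] {H : IntermediateField K Ω} [IsGalois K H]
    (g : Ω ≃ₐ[K] Ω) : ∃ h : H ≃ₐ[K] H, Restricts (algebraMap H Ω) g h :=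
  ⟨AlgEquiv.restrictNormalHom H g, fun x ↦ (AlgEquiv.restrictNormal_commutes g H x).symm⟩

theorem exists_lift [IsGalois K Ω] {H : IntermediateField K Ω} [IsGalois K H]
    (h : H ≃ₐ[K] H) : ∃ g : Ω ≃ₐ[K] Ω, Restricts (algebraMap H Ω) g h := by
  obtain ⟨g, rfl⟩ := AlgEquiv.restrictNormalHom_surjective (F := K) (K₁ := H) Ω h
  exact ⟨g, fun x ↦ (AlgEquiv.restrictNormal_commutes g H x).symm⟩

theorem fix_sup {M N : IntermediateField K Ω} (g : Ω ≃ₐ[K] Ω) (hM : ∀ x ∈ M, g x = x)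
    (hN : ∀ x ∈ N, g x = x) : ∀ x ∈ M ⊔ N, g x = x := by
  have h1 : g ∈ (M ⊔ N).fixingSubgroup := by
    rw [IntermediateField.fixingSubgroup_sup]
    exact ⟨(IntermediateField.mem_fixingSubgroup_iff _ _).2 hM,
      (IntermediateField.mem_fixingSubgroup_iff _ _).2 hN⟩
  exact (IntermediateField.mem_fixingSubgroup_iff _ _).1 h1

/-- Descent of a character cutting out `M` to `Gal(M/K)`. -/
theorem exists_faithful [IsGalois K Ω] {χ : Chr K Ω k} {M : IntermediateField K Ω}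
    (h : CutsOut χ M) : ∃ χ' : (M ≃ₐ[K] M) →* kˣ, Function.Injective χ' ∧
      ∀ (g : Ω ≃ₐ[K] Ω) (h : M ≃ₐ[K] M), Restricts (algebraMap M Ω) g h → χ g = χ' h := by
  have i := isGalois_of_cutsOut h
  obtain ⟨χ', h'⟩ := exists_desc (χ := χ) (H := M) fun g hg ↦ (h g).2 hg
  refine ⟨χ', ?_, h'⟩
  rw [injective_iff_map_eq_one]
  intro a ha
  obtain ⟨g, hg⟩ := exists_lift a
  have h1 := (h g).1 (by rw [h' g a hg, ha])
  ext x
  have := hg x
  exact this.symm.trans (h1 x x.2)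

theorem pow_card_desc [IsGalois K Ω] {χ : Chr K Ω k} {M : IntermediateField K Ω}
    [FiniteDimensional K M] (h : CutsOut χ M) (g : Ω ≃ₐ[K] Ω) : χ g ^ finrank K M = 1 := by
  have i := isGalois_of_cutsOut h
  obtain ⟨χ', _, h'⟩ := exists_faithful h
  obtain ⟨a, ha⟩ := exists_restricts (H := M) g
  rw [h' g a ha, ← map_pow, ← IsGalois.card_aut_eq_finrank K M, pow_card_eq_one', map_one]

theorem twist_of_goodN {p n : ℕ} [Fact p.Prime] [IsGalois K Ω]
    (ιinf : Ω →+* ℂ) (ιp : Ω →+* k) (L : IwasawaLog p k) (S : Set (K →+* ℂ))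
    (M : IntermediateField K Ω) [FiniteDimensional K M] (χ₀ : Chr K Ω k)
    (h0 : CutsOut χ₀ M) (χM : (M ≃ₐ[K] M) →* kˣ)
    (hM : ∀ (g : Ω ≃ₐ[K] Ω) (h : M ≃ₐ[K] M), Restricts (algebraMap M Ω) g h → χ₀ g = χM h)
    (N : IntermediateField K Ω) (hc : (finrank K M).Coprime p)
    (hN : finrank K N = p ^ n) (hg : TwistGoodN p n ιinf ιp L S M χM N) :
    TwistLeopoldt ιinf ιp L S χ₀ N := by
  intro φ hφ
  have j1 := isGalois_of_cutsOut h0
  have j2 := isGalois_of_cutsOut hφ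
  have i1 : FiniteDimensional K N := by
    refine FiniteDimensional.of_finrank_pos ?_
    rw [hN]; exact pow_pos (Nat.Prime.pos Fact.out) n
  have i3 : FiniteDimensional K ↥(M ⊔ N) := inferInstance
  have hcut : CutsOut (χ₀ * φ) (M ⊔ N) := by
    intro g
    constructor
    · intro h1
      have e1 : χ₀ g = (φ g)⁻¹ := eq_inv_of_mul_eq_one_left h1
      have o1 : (χ₀ g) ^ finrank K M = 1 := pow_card_desc h0 g
      have o2 : (χ₀ g) ^ p ^ n = 1 := by
        rw [e1, inv_pow, ← hN, pow_card_desc hφ g, inv_one]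
      have hcop : (finrank K M).Coprime (p ^ n) := hc.pow_right n
      have o3 : χ₀ g = 1 := by
        have d1 := orderOf_dvd_of_pow_eq_one o1
        have d2 := orderOf_dvd_of_pow_eq_one o2
        have := Nat.dvd_gcd d1 d2
        rw [Nat.Coprime.gcd_eq_one hcop] at this
        exact orderOf_eq_one_iff.1 (Nat.dvd_one.1 this)
      have o4 : φ g = 1 := by
        rw [o3] at e1
        exact inv_eq_one.1 e1.symm
      exact fix_sup g ((h0 g).1 o3) ((hφ g).1 o4)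
    · intro h1
      have a1 : χ₀ g = 1 := (h0 g).2 fun x hx ↦ h1 x ((le_sup_left : M ≤ M ⊔ N) hx)
      have a2 : φ g = 1 := (hφ g).2 fun x hx ↦ h1 x ((le_sup_right : N ≤ M ⊔ N) hx)
      rw [MonoidHom.mul_apply, a1, a2, one_mul]
  obtain ⟨χ', hinj, hχ'⟩ := exists_faithful hcut
  refine ⟨M ⊔ N, i3, hcut, χ', hχ', hg (M ⊔ N) rfl χ' hinj ?_⟩
  intro h a hha
  have j3 := isGalois_of_cutsOut hcut
  obtain ⟨g, hgh⟩ := exists_lift h
  have hga : Restricts (algebraMap M Ω) g a := by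
    intro x
    have h1 := hgh (⟨x, (le_sup_left : M ≤ M ⊔ N) x.2⟩ : ↥(M ⊔ N))
    exact h1.trans (hha x ⟨x, (le_sup_left : M ≤ M ⊔ N) x.2⟩ rfl)
  rw [← hχ' g h hgh, ← hM g a hga, MonoidHom.mul_apply, mul_pow, ← hN, pow_card_desc hφ g, mul_one]

end Pool.Agent.Helper38.FD
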