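import Pool.Agent.Helper38.FD.DensDefs
import Pool.Agent.Helper38.FD.Twist
import Pool.Agent.Helper56.RL.ADM
import Pool.Agent.Helper58.PP.DTAM
import Pool.Agent.Helper50.PP.DSPL
import Pool.Agent.Helper77.PPL.Goals

/-! Splitting of primes, and the bridge from `TwF` to `Pair.Good`. -/

namespace Pool.Agent.Helper38.FD

open NumberField Module IsDedekindDomain Pool.Agent.Helper51.SigLeo Pool.Agent.Helper51.RP
open Pool.Agent.Helper11.PP Pool.Agent.Helper77.RL Pool.Agent.Helper77.PPL
open Pool.Agent.Helper42.RD (TSet)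
open Pool.Agent.Helper40.RS (bel efg gw gw_inj lies val_smul)
open Pool.Agent.Helper40.RD (bel_of_above)
open Pool.Agent.Helper58.PP (ee ord_ee map_le_iff ee_ne)
open Pool.Agent.Helper50.PP (ncard_ab)
open scoped Pointwise

section

variable {K E : Type} [Field K] [NumberField K] [Field E] [NumberField E] [Algebra K E]

theorem free_of_splits [IsGalois K E] (v : HeightOneSpectrum (𝓞 K))
    (h : SplitsIn (finrank K E) E v) (V : HeightOneSpectrum (𝓞 E)) (hV : Above V v) :
    FreeP K V := by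
  obtain rfl := bel_of_above hV
  intro g hg
  have h1 : ((bel K V).asIdeal.primesOver (𝓞 E)).ncard = finrank K E := by
    rw [← ncard_ab]; exact h
  have hfin : Finite ((bel K V).asIdeal.primesOver (𝓞 E)) :=
    IsDedekindDomain.primesOver_finite (bel K V).asIdeal (𝓞 E)
  have hV' : V.asIdeal.LiesOver (bel K V).asIdeal := lies (K := K) V
  have htr : MulAction.orbit (E ≃ₐ[K] E) V.asIdeal = (bel K V).asIdeal.primesOver (𝓞 E) := by
    ext Q
    constructor
    · rintro ⟨σ, rfl⟩
      have h2 : bel K (gw σ V) = bel K V :=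
        Pool.Agent.Helper40.RS.bel_smul σ V (gw σ V) rfl
      refine ⟨(gw σ V).isPrime, ?_⟩
      rw [← h2]
      exact lies (K := K) (gw σ V)
    · rintro ⟨hQ1, hQ2⟩
      exact Ideal.exists_smul_eq_of_isGaloisGroup (bel K V).asIdeal V.asIdeal Q (E ≃ₐ[K] E)
  have hst : Nat.card (MulAction.stabilizer (E ≃ₐ[K] E) V.asIdeal) = 1 := by
    have h3 := Nat.card_congr (MulAction.orbitProdStabilizerEquivGroup (E ≃ₐ[K] E) V.asIdeal)
    rw [Nat.card_prod, IsGalois.card_aut_eq_finrank] at h3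
    have h4 : Nat.card (MulAction.orbit (E ≃ₐ[K] E) V.asIdeal) = finrank K E := by
      rw [Nat.card_coe_set_eq, htr, h1]
    rw [h4] at h3
    have h5 : 0 < finrank K E := finrank_pos
    exact Nat.eq_of_mul_eq_mul_left h5 (by rw [h3, mul_one])
  have hg' : g ∈ MulAction.stabilizer (E ≃ₐ[K] E) V.asIdeal := by
    rw [MulAction.mem_stabilizer_iff]
    ext x
    rw [Ideal.mem_pointwise_smul_iff_inv_smul_mem]
    have e2 : ((g⁻¹ • x : 𝓞 E) : E) = (g⁻¹ : E ≃ₐ[K] E) (x : E) := rfl
    have e3 : g ((g⁻¹ : E ≃ₐ[K] E) (x : E)) = x := AlgEquiv.apply_symm_apply g (x : E)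
    rw [← V.valuation_lt_one_iff_mem (K := E), ← V.valuation_lt_one_iff_mem (K := E) x]
    have e4 := hg ((g⁻¹ : E ≃ₐ[K] E) (x : E))
    rw [e3] at e4
    show V.valuation E ((g⁻¹ : E ≃ₐ[K] E) (x : E)) < 1 ↔ V.valuation E (x : E) < 1
    rw [e4]
  have := Subgroup.card_eq_one.1 hst
  rw [this] at hg'
  exact Subgroup.mem_bot.1 hg'

theorem splits_of_free [IsGalois K E] (v : HeightOneSpectrum (𝓞 K))
    (V : HeightOneSpectrum (𝓞 E)) (hV : Above V v) (hf : FreeP K V) :
    SplitsIn (finrank K E) E v := by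
  obtain rfl := bel_of_above hV
  show {V' : HeightOneSpectrum (𝓞 E) | Ab V' (bel K V)}.ncard = finrank K E
  rw [ncard_ab]
  have h1 := efg (K := K) V
  rw [Pool.Agent.Helper2.RL.ef_free V hf, mul_one] at h1
  exact h1

theorem ordv_of_unram (v : HeightOneSpectrum (𝓞 K)) (h : ¬ RamIn E v)
    (V : HeightOneSpectrum (𝓞 E)) (hV : Above V v) (x : K) :
    ordv V (algebraMap K E x) = ordv v x := by
  obtain rfl := bel_of_above hV
  have h1 : ¬ 2 ≤ ee K V := fun h2 ↦ h ⟨V, hV, (map_le_iff K V).2 h2⟩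
  have h2 := ee_ne K V
  have h3 : ee K V = 1 := by omega
  rw [ord_ee, h3]
  simp

end

/-- The field cut out by a character with open kernel. -/
theorem exists_cutsOut {K Ω k : Type} [Field K] [Field Ω] [Algebra K Ω] [NormedField k]
    [IsGalois K Ω] (χ : Chr K Ω k) (X : IntermediateField K Ω) [FiniteDimensional K X]
    (h : ∀ g : Ω ≃ₐ[K] Ω, (∀ x ∈ X, g x = x) → χ g = 1) :
    ∃ H : IntermediateField K Ω, FiniteDimensional K H ∧ CutsOut χ H := by
  have hle : X.fixingSubgroup ≤ χ.ker := by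
    intro g hg
    rw [MonoidHom.mem_ker]
    exact h g ((IntermediateField.mem_fixingSubgroup_iff _ _).1 hg)
  have hopen : IsOpen (χ.ker : Set (Ω ≃ₐ[K] Ω)) :=
    Subgroup.isOpen_mono hle X.fixingSubgroup_isOpen
  have hclosed : IsClosed (χ.ker : Set (Ω ≃ₐ[K] Ω)) := Subgroup.isClosed_of_isOpen _ hopen
  have hfix : (IntermediateField.fixedField χ.ker).fixingSubgroup = χ.ker :=
    InfiniteGalois.fixingSubgroup_fixedField ⟨χ.ker, hclosed⟩
  have hX : IntermediateField.fixedField χ.ker ≤ X := by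
    rw [← InfiniteGalois.fixedField_fixingSubgroup X]
    exact IntermediateField.fixedField_antitone hle
  refine ⟨IntermediateField.fixedField χ.ker, ?_, ?_⟩
  · exact FiniteDimensional.of_injective (IntermediateField.inclusion hX).toLinearMap
      (IntermediateField.inclusion hX).injective
  · intro g
    rw [← MonoidHom.mem_ker, ← IntermediateField.mem_fixingSubgroup_iff, hfix]

theorem good_of_twF {p : ℕ} [Fact p.Prime] {K : Type} [Field K] [NumberField K]
    {ιinf : AlgebraicClosure K →+* ℂ} {ιp : AlgebraicClosure K →+* ℂ_[p]}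
    (L : IwasawaLog p ℂ_[p])
    {M : IntermediateField K (AlgebraicClosure K)} [NumberField M] [IsGalois K M]
    (D : Pair ιinf ιp M) (χM : (M ≃ₐ[K] M) →* ℂ_[p]ˣ)
    (hM : ∀ (g : AlgebraicClosure K ≃ₐ[K] AlgebraicClosure K) (h : M ≃ₐ[K] M),
      Restricts (algebraMap M (AlgebraicClosure K)) g h → D.χ g = χM h)
    (N : IntermediateField K (AlgebraicClosure K)) (hN : 0 < finrank K N)
    (hg : TwF ιinf ιp L D.S M χM N) : D.Good L N := by
  intro E φ ψ hE hφ hψ
  have jN := isGalois_of_cutsOut hφ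
  have jE := isGalois_of_cutsOut hψ
  obtain ⟨a, ha⟩ := hE.deg
  have fM : FiniteDimensional K M := Module.Finite.of_restrictScalars_finite ℚ K M
  have fN : FiniteDimensional K N := FiniteDimensional.of_finrank_pos hN
  have fE : FiniteDimensional K E := FiniteDimensional.of_finrank_pos
    (by rw [ha]; exact pow_pos (Nat.Prime.pos Fact.out) a)
  have nE : NumberField E := NumberField.of_module_finite K E
  have hadm : Adm p (TSet ιinf ιp D.S)
      {v | RamIn N v ∧ ∃ w : HeightOneSpectrum (𝓞 M), Above w v ∧ FreeP K w} M χM E := by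
    refine Pool.Agent.Helper56.RL.x_adm p a K M _ E ha ?_ ?_ _ _
    · intro v hv V hV
      refine free_of_splits v (hE.split v ?_) V hV
      rcases hv with hv | hv
      · exact Or.inr hv.1
      · left
        have e : ((p : 𝓞 K) : K) = p := map_natCast (algebraMap (𝓞 K) K) p
        rw [← v.valuation_lt_one_iff_mem (K := K)]
        show v.valuation K ((p : 𝓞 K) : K) < 1
        rw [e]; exact hv
    · intro v _ _ hw V hV x
      obtain ⟨w, hw1, hw2⟩ := hw
      exact ordv_of_unram v (hE.unr v (splits_of_free v w hw1 hw2)) V hV x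
  have htw := hg E hE.not_le hadm
  obtain ⟨H, fH, hH⟩ := exists_cutsOut (D.χ * φ * ψ) (M ⊔ N ⊔ E) (by
    intro g hg
    have a1 : D.χ g = 1 := (D.cutsOut g).2 fun x hx ↦ hg x ((le_sup_left.trans le_sup_left :
      M ≤ M ⊔ N ⊔ E) hx)
    have a2 : φ g = 1 := (hφ g).2 fun x hx ↦ hg x ((le_sup_right.trans le_sup_left :
      N ≤ M ⊔ N ⊔ E) hx)
    have a3 : ψ g = 1 := (hψ g).2 fun x hx ↦ hg x ((le_sup_right : E ≤ M ⊔ N ⊔ E) hx)
    rw [MonoidHom.mul_apply, MonoidHom.mul_apply, a1, a2, a3, one_mul, one_mul])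
  have jH := isGalois_of_cutsOut hH
  obtain ⟨χ', hinj, hχ'⟩ := exists_faithful hH
  obtain ⟨φ', hφinj, hφ'⟩ := exists_faithful hφ
  obtain ⟨ψ', _, hψ'⟩ := exists_faithful hψ
  refine ⟨H, fH, hH, χ', hχ', htw H χ' φ' ψ' hinj hφinj ?_⟩
  intro g
  have r : ∀ (X : IntermediateField K (AlgebraicClosure K)) [IsGalois K X],
      Restricts (algebraMap X (AlgebraicClosure K)) g (AlgEquiv.restrictNormalHom X g) :=
    fun X _ x ↦ (AlgEquiv.restrictNormal_commutes g X x).symm
  rw [← hχ' g _ (r H), ← hM g _ (r M), ← hφ' g _ (r N), ← hψ' g _ (r E)]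
  rfl

end Pool.Agent.Helper38.FD
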