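import Pool.Agent.Helper38.FD.NatDefs
import Pool.Agent.Helper38.FD.Twist
import Pool.Agent.Helper77.PPB.DENN

/-! The density theorem for general base characters, natural density: the readable form from `B_DENN`. -/

namespace Pool.Agent.Helper38.FD

open NumberField Module IsDedekindDomain Pool.Agent.Helper51.SigLeo Pool.Agent.Helper11.PP
open Pool.Agent.Helper77.PPB (B_DENN GoodB CompB ChN ChF)
open Pool.Agent.Helper38.ND (cnt2)

section norm

variable {p : ℕ} [Fact p.Prime]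

/-- The elements of norm at most `1`. -/
def ballR (p : ℕ) [Fact p.Prime] : Subring ℂ_[p] where
  carrier := {x | ‖x‖ ≤ 1}
  zero_mem' := by simp
  one_mem' := by simp
  add_mem' := fun {a b} ha hb ↦ (IsUltrametricDist.norm_add_le_max a b).trans (max_le ha hb)
  mul_mem' := fun {a b} ha hb ↦ by
    simp only [Set.mem_setOf_eq, norm_mul] at *
    exact mul_le_one₀ ha (norm_nonneg _) hb
  neg_mem' := fun {a} ha ↦ by simpa using ha

theorem norm_nat_le (r : ℕ) : ‖(r : ℂ_[p])‖ ≤ 1 := by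
  have := natCast_mem (ballR p) r
  exact this

theorem norm_p_lt : ‖(p : ℂ_[p])‖ < 1 := by
  have h : ‖(algebraMap ℚ_[p] ℂ_[p] (p : ℚ_[p]))‖ = ‖(p : ℚ_[p])‖ := norm_algebraMap' _ _
  rw [map_natCast] at h
  rw [h]
  exact Padic.norm_p_lt_one

/-- `x^p - y^p ≡ (x - y)^p` modulo `p`. -/
theorem norm_pow_sub (x y : ballR p) :
    ‖((x : ℂ_[p]) - y) ^ p - ((x : ℂ_[p]) ^ p - (y : ℂ_[p]) ^ p)‖ < 1 := by
  obtain ⟨r, hr⟩ := exists_add_pow_prime_eq (Fact.out : p.Prime) (x - y) y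
  have h1 : (x : ℂ_[p]) ^ p = ((x : ℂ_[p]) - y) ^ p + (y : ℂ_[p]) ^ p +
      p * ((x : ℂ_[p]) - y) * y * r := by
    have := congrArg (Subtype.val : ballR p → ℂ_[p]) hr
    push_cast at this
    rw [sub_add_cancel] at this
    exact this
  have h2 : ((x : ℂ_[p]) - y) ^ p - ((x : ℂ_[p]) ^ p - (y : ℂ_[p]) ^ p) =
      -(p * (((x - y) * y * r : ballR p) : ℂ_[p])) := by
    rw [h1]; push_cast; ring
  rw [h2, norm_neg, norm_mul]
  exact mul_lt_one_of_nonneg_of_lt_one_left (norm_nonneg _) norm_p_lt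
    ((x - y) * y * r : ballR p).2

theorem norm_pow_nat (r : ℕ) : ‖(r : ℂ_[p]) ^ p - r‖ < 1 := by
  have h1 : ((p : ℤ) : ℤ) ∣ (r : ℤ) ^ p - r := by
    have : ((((r : ℤ) ^ p - r : ℤ)) : ZMod p) = 0 := by
      push_cast
      rw [ZMod.pow_card, sub_self]
    exact (ZMod.intCast_zmod_eq_zero_iff_dvd _ _).1 this
  obtain ⟨c, hc⟩ := h1
  have h2 : (r : ℂ_[p]) ^ p - r = p * (c : ℂ_[p]) := by exact_mod_cast congrArg (Int.cast : ℤ → ℂ_[p]) hc
  rw [h2, norm_mul]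
  refine mul_lt_one_of_nonneg_of_lt_one_left (norm_nonneg _) norm_p_lt ?_
  exact intCast_mem (ballR p) c

/-- Frobenius. -/
theorem norm_frob {x : ℂ_[p]} (hx : ‖x‖ ≤ 1) (r : ℕ) (h : ‖x - r‖ = 1) : ‖x ^ p - r‖ = 1 := by
  have h1 := norm_pow_sub (p := p) ⟨x, hx⟩ ⟨(r : ℂ_[p]), norm_nat_le r⟩
  have h2 := norm_pow_nat (p := p) r
  simp only at h1
  have h3 : ‖(x - r) ^ p‖ = 1 := by rw [norm_pow, h, one_pow]
  have h4 : x ^ p - r = (x - r) ^ p + (-((x - r) ^ p - (x ^ p - (r : ℂ_[p]) ^ p)) +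
      ((r : ℂ_[p]) ^ p - r)) := by ring
  have h5 : ‖-((x - r) ^ p - (x ^ p - (r : ℂ_[p]) ^ p)) + ((r : ℂ_[p]) ^ p - r)‖ < 1 := by
    refine (IsUltrametricDist.norm_add_le_max _ _).trans_lt (max_lt ?_ h2)
    rwa [norm_neg]
  rw [h4, IsUltrametricDist.norm_add_eq_max_of_norm_ne_norm (by rw [h3]; exact h5.ne'), h3]
  exact max_eq_left h5.le

theorem norm_frob_pow {x : ℂ_[p]} (hx : ‖x‖ ≤ 1) (r s : ℕ) (h : ‖x - r‖ = 1) :
    ‖x ^ p ^ s - r‖ = 1 := by
  induction s with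
  | zero => simpa using h
  | succ s ih =>
    rw [pow_succ, pow_mul]
    exact norm_frob (by rw [norm_pow]; exact pow_le_one₀ (norm_nonneg _) hx) r ih

end norm

section chr

variable {p : ℕ} [Fact p.Prime] {K : Type} [Field K] [NumberField K]

theorem norm_chr {χ : Chr K (AlgebraicClosure K) ℂ_[p]} {M : IntermediateField K (AlgebraicClosure K)}
    [FiniteDimensional K M] (h : CutsOut χ M) (g : AlgebraicClosure K ≃ₐ[K] AlgebraicClosure K) :
    ‖((χ g : ℂ_[p]ˣ) : ℂ_[p])‖ = 1 := by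
  have h1 := pow_card_desc h g
  have h2 : ((χ g : ℂ_[p]ˣ) : ℂ_[p]) ^ finrank K M = 1 := by
    rw [← Units.val_pow_eq_pow_val, h1, Units.val_one]
  have h3 : ‖((χ g : ℂ_[p]ˣ) : ℂ_[p])‖ ^ finrank K M = 1 := by
    rw [← norm_pow, h2, norm_one]
  exact (pow_eq_one_iff_of_nonneg (norm_nonneg _) finrank_pos.ne').1 h3

/-- Not congruent to `ω`. -/
theorem not_isOmega {χ : Chr K (AlgebraicClosure K) ℂ_[p]} (h : ¬ IsOmega χ)
    (hχ : ∀ g, ‖((χ g : ℂ_[p]ˣ) : ℂ_[p])‖ = 1) :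
    ∃ (g : AlgebraicClosure K ≃ₐ[K] AlgebraicClosure K) (r : ℕ),
      (∀ ξ : AlgebraicClosure K, ξ ^ p = 1 → g ξ = ξ ^ r) ∧
      ‖((χ g : ℂ_[p]ˣ) : ℂ_[p]) - r‖ = 1 := by
  unfold IsOmega at h
  push Not at h
  obtain ⟨g, r, h1, h2⟩ := h
  refine ⟨g, r, h1, le_antisymm ?_ h2⟩
  rw [sub_eq_add_neg]
  refine (IsUltrametricDist.norm_add_le_max _ _).trans (max_le (hχ g).le ?_)
  rw [norm_neg]
  exact norm_nat_le r

theorem cutsOut_pow {χ : Chr K (AlgebraicClosure K) ℂ_[p]}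
    {M : IntermediateField K (AlgebraicClosure K)} [FiniteDimensional K M] (h : CutsOut χ M)
    (hc : (finrank K M).Coprime p) (s : ℕ) : CutsOut (χ ^ p ^ s) M := by
  intro g
  rw [← h g, MonoidHom.pow_apply]
  refine ⟨fun h1 ↦ ?_, fun h1 ↦ by rw [h1, one_pow]⟩
  have h2 := pow_card_desc h g
  have h3 : orderOf (χ g) ∣ Nat.gcd (finrank K M) (p ^ s) :=
    Nat.dvd_gcd (orderOf_dvd_of_pow_eq_one h2) (orderOf_dvd_of_pow_eq_one h1)
  rw [(Nat.Coprime.pow_right s hc : Nat.gcd _ _ = 1), Nat.dvd_one, orderOf_eq_one_iff] at h3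
  exact h3

theorem pow_class {χ : Chr K (AlgebraicClosure K) ℂ_[p]}
    {M : IntermediateField K (AlgebraicClosure K)} [FiniteDimensional K M] (h : CutsOut χ M)
    (hc : (finrank K M).Coprime p) (r s : ℕ) :
    ∃ t : ℕ, χ ^ p ^ r = (χ ^ p ^ s) ^ p ^ t := by
  have hu : IsUnit ((p : ℕ) : ZMod (finrank K M)) := (ZMod.isUnit_iff_coprime p _).2 hc.symm
  have : NeZero (finrank K M) := ⟨finrank_pos.ne'⟩
  obtain ⟨u, hu⟩ := hu
  have ho : 0 < orderOf u := orderOf_pos u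
  set f := orderOf u with hf
  -- `t = r + s (f - 1)`, `s + t = r + s f`
  refine ⟨r + s * (f - 1), ?_⟩
  have h1 : s + (r + s * (f - 1)) = r + f * s := by
    obtain ⟨n, hn⟩ : ∃ n, f = n + 1 := ⟨f - 1, by omega⟩
    rw [hn]
    simp
    ring
  ext g
  rw [MonoidHom.pow_apply, MonoidHom.pow_apply, MonoidHom.pow_apply, ← pow_mul (χ g), ← pow_add, h1]
  have h2 := pow_card_desc h g
  have h3 : p ^ r ≡ p ^ (r + f * s) [MOD finrank K M] := by
    have h4 : ((p ^ r : ℕ) : ZMod (finrank K M)) = ((p ^ (r + f * s) : ℕ) : ZMod (finrank K M)) := by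
      push_cast
      rw [← hu, pow_add, pow_mul (u : ZMod (finrank K M)) f s, ← Units.val_pow_eq_pow_val u f, hf,
        pow_orderOf_eq_one]
      simp
    exact (ZMod.natCast_eq_natCast_iff _ _ _).1 h4
  have h5 : p ^ r ≡ p ^ (r + f * s) [MOD orderOf (χ g)] :=
    h3.of_dvd (orderOf_dvd_of_pow_eq_one h2)
  exact congrArg (fun z : ℂ_[p]ˣ ↦ (z : ℂ_[p])) (pow_eq_pow_iff_modEq.2 h5)

end chr

theorem main_nat' (h : B_DENN) (p : ℕ) [Fact p.Prime] (K : Type) [Field K]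
    [NumberField K] (ιinf : AlgebraicClosure K →+* ℂ) (ιp : AlgebraicClosure K →+* ℂ_[p])
    (L : IwasawaLog p ℂ_[p]) (ι : Type) [Fintype ι] [Nonempty ι] (D : ι → BaseChr ιinf ιp) :
    (∀ X : ℕ, {x | x ∈ AllChr p K ∧ cond K x.1 ≤ X}.Finite) ∧
    (∀ η : ℝ, 0 < η → ∀ᶠ X : ℕ in Filter.atTop,
      countChr {x | x ∈ SplitChr p K ∧ ∃ i, ¬ (D i).Good L x} X ≤
        (∑ i, (D i).theta + η) * countChr (SplitChr p K) X) ∧
    (∑ i, (D i).theta < 1 → ∃ δ : ℝ, 0 < δ ∧ ∀ᶠ X : ℕ in Filter.atTop,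
      0 < countChr (AllChr p K) X ∧ δ * countChr (AllChr p K) X ≤
        countChr {x | x ∈ SplitChr p K ∧ ∀ i, (D i).Good L x} X) := by
  classical
  have hp : p.Prime := Fact.out
  have hfin : ∀ i, FiniteDimensional K (D i).M := fun i ↦
    FiniteDimensional.of_finrank_pos (Nat.pos_of_ne_zero fun h0 ↦ by
      have := (D i).coprime
      rw [h0, Nat.coprime_zero_left] at this
      exact hp.one_lt.ne' this)
  set e := Fintype.equivFin ι with he
  have hp1 : (1 : ℝ) < p := by exact_mod_cast hp.one_lt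
  have hQ : ∀ i, (p : ℝ) ≤ (p : ℝ) ^ orderOf (p : ZMod (finrank K (D i).M)) := by
    intro i
    have := hfin i
    have : NeZero (finrank K (D i).M) := ⟨finrank_pos.ne'⟩
    have hu : IsUnit ((p : ℕ) : ZMod (finrank K (D i).M)) :=
      (ZMod.isUnit_iff_coprime p _).2 (D i).coprime.symm
    obtain ⟨u, hu⟩ := hu
    have ho : 0 < orderOf (p : ZMod (finrank K (D i).M)) := by
      rw [← hu, orderOf_units]
      exact orderOf_pos u
    calc (p : ℝ) = (p : ℝ) ^ 1 := (pow_one _).symm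
      _ ≤ _ := pow_le_pow_right₀ hp1.le ho
  have hθ0 : ∀ i, 0 ≤ (D i).theta := by
    intro i
    have h1 := hQ i
    unfold BaseChr.theta
    split_ifs
    · exact div_nonneg (by linarith) (mul_nonneg (by linarith) (by linarith))
    · exact div_nonneg zero_le_one (by linarith)
  obtain ⟨i₀⟩ := ‹Nonempty ι›
  obtain ⟨h1, h2, h3⟩ := h p K ιinf ιp L (ι × ℕ) (Fintype.card ι) (fun x ↦ e x.1)
    (fun x ↦ (D x.1).S) (fun x ↦ (D x.1).M) (fun x ↦ (D x.1).F)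
    (fun x ↦ (D x.1).χ ^ p ^ x.2) (fun x ↦ (D x.1).ψ)
    (fun x ↦ (D x.1).isCMType) (fun x ↦ (D x.1).isOrdinary) (fun x ↦ hfin x.1)
    (fun x ↦ by have := hfin x.1; exact cutsOut_pow (D x.1).cutsOutM (D x.1).coprime x.2)
    (fun x ↦ (D x.1).coprime)
    (fun x ↦ by
      have := hfin x.1
      obtain ⟨g, r, h1, h2⟩ := not_isOmega (D x.1).not_omega (norm_chr (D x.1).cutsOutM)
      refine ⟨g, r, h1, ?_⟩
      rw [MonoidHom.pow_apply, Units.val_pow_eq_pow_val]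
      exact norm_frob_pow (norm_chr (D x.1).cutsOutM g).le r x.2 h2)
    (fun x ↦ (D x.1).cutsOutF) (fun x ↦ (D x.1).degree) (fun x ↦ (D x.1).split)
    (fun x y hxy ↦ by
      have hxy : x.1 = y.1 := e.injective hxy
      obtain ⟨i, r⟩ := x
      obtain ⟨j, s⟩ := y
      simp only at hxy
      subst hxy
      have := hfin i
      exact ⟨rfl, pow_class (D i).cutsOutM (D i).coprime r s, rfl⟩)
    (fun t ↦ (D (e.symm t)).theta) (fun t ↦ hθ0 _)
    (fun x ↦ by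
      obtain ⟨i, s⟩ := x
      have := hfin i
      simp only [Equiv.symm_apply_apply]
      by_cases hM : (D i).M = ⊥
      · refine Or.inl ⟨hM, ?_⟩
        have h5 : finrank K (D i).M = 1 := by rw [hM, IntermediateField.finrank_bot]
        have h6 : orderOf (p : ZMod (finrank K (D i).M)) = 1 := by
          rw [orderOf_eq_one_iff]
          rw [h5]
          exact Subsingleton.elim _ _
        unfold BaseChr.theta
        rw [h6, pow_one]
        split_ifs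
        · rw [div_le_div_iff₀ (by linarith) (by nlinarith)]
          nlinarith
        · exact le_rfl
      · by_cases hj : ∃ j : ℕ, IsOmega ((D i).χ ^ (1 + p ^ j))
        · refine Or.inr (Or.inl ⟨hM, (D i).large hj, ?_⟩)
          unfold BaseChr.theta
          rw [if_pos hj]
        · refine Or.inr (Or.inr ⟨hM, fun j ↦ ?_, ?_⟩)
          · have h7 : ¬ IsOmega ((D i).χ ^ (1 + p ^ j)) := fun h8 ↦ hj ⟨j, h8⟩
            have h9 : ∀ g, ‖((((D i).χ ^ (1 + p ^ j)) g : ℂ_[p]ˣ) : ℂ_[p])‖ = 1 := fun g ↦ by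
              rw [MonoidHom.pow_apply, Units.val_pow_eq_pow_val, norm_pow,
                norm_chr (D i).cutsOutM g, one_pow]
            obtain ⟨g, r, h10, h11⟩ := not_isOmega h7 h9
            refine ⟨g, r, h10, ?_⟩
            have h12 := norm_frob_pow (h9 g).le r s h11
            rw [MonoidHom.pow_apply, Units.val_pow_eq_pow_val, ← pow_mul] at h12
            rw [MonoidHom.pow_apply, Units.val_pow_eq_pow_val, ← pow_mul, mul_comm]
            exact h12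
          · unfold BaseChr.theta
            rw [if_neg hj])
  have hsum : ∑ t, (D (e.symm t)).theta = ∑ i, (D i).theta :=
    Equiv.sum_comp e.symm fun i ↦ (D i).theta
  have hG : ∀ x i, (D i).Good L x ↔ ∀ s : ℕ, GoodB ιinf ιp L (D i).S (D i).M (D i).F
      ((D i).χ ^ p ^ s) (D i).ψ x := by
    intro x i
    exact ⟨fun hg s E ψ hE hψ ↦ hg s E ψ ⟨hE.deg, hE.split, hE.unr⟩ hψ,
      fun hg s E ψ hE hψ ↦ hg s E ψ ⟨hE.deg, hE.split, hE.unr⟩ hψ⟩
  have hbad : {x | x ∈ SplitChr p K ∧ ∃ i, ¬ (D i).Good L x} =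
      {x | x ∈ ChF p K ∧ ∃ y : ι × ℕ, ¬ GoodB ιinf ιp L (D y.1).S (D y.1).M (D y.1).F
        ((D y.1).χ ^ p ^ y.2) (D y.1).ψ x} := by
    ext x
    simp only [Set.mem_setOf_eq, hG, not_forall]
    exact ⟨fun ⟨ha, i, s, hb⟩ ↦ ⟨ha, ⟨i, s⟩, hb⟩, fun ⟨ha, ⟨i, s⟩, hb⟩ ↦ ⟨ha, i, s, hb⟩⟩
  have hgood : {x | x ∈ SplitChr p K ∧ ∀ i, (D i).Good L x} =
      {x | x ∈ ChF p K ∧ ∀ y : ι × ℕ, GoodB ιinf ιp L (D y.1).S (D y.1).M (D y.1).F
        ((D y.1).χ ^ p ^ y.2) (D y.1).ψ x} := by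
    ext x
    simp only [Set.mem_setOf_eq, hG]
    exact ⟨fun ⟨ha, hb⟩ ↦ ⟨ha, fun y ↦ hb y.1 y.2⟩, fun ⟨ha, hb⟩ ↦ ⟨ha, fun i s ↦ hb (i, s)⟩⟩
  refine ⟨h1, fun η hη ↦ ?_, fun hlt ↦ ?_⟩
  · have := h2 η hη
    rw [hsum] at this
    rw [hbad]
    exact this
  · have := h3 (by rw [hsum]; exact hlt)
    rw [hgood]
    exact this

end Pool.Agent.Helper38.FD
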