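import Pool.Agent.Helper51.SigLeo.Defs

/-!
# The `Σ`-Leopoldt conjecture for characters of the absolute Galois group: definitions

`Ω` is an algebraic closure of the number field `K`, `k` is the field `ℂ_p`.
-/

namespace Pool.Agent.Helper38.FD

open NumberField Module Pool.Agent.Helper51.SigLeo

/-- The group of the characters `χ : Gal(Ω/K) → kˣ`. -/
abbrev Chr (K Ω k : Type) [Field K] [Field Ω] [Algebra K Ω] [NormedField k] : Type :=
  (Ω ≃ₐ[K] Ω) →* kˣ

/-- The set `S` of embeddings of `K` in `ℂ` is `p`-ordinary for the embeddings `ι_∞`, `ι_p` of the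
algebraic closure `Ω`: if `σ, τ : K → Ω` induce the same `p`-adic absolute value of `K` (that is, the
same place above `p`), then `ι_∞ σ` is in `S` if and only if `ι_∞ τ` is in `S`. For a CM type `S` this
says that the sets of places above `p` induced by `S` and by its complement are disjoint. -/
def IsOrdinary {K Ω k : Type} [Field K] [Field Ω] [NormedField k] (ιinf : Ω →+* ℂ)
    (ιp : Ω →+* k) (S : Set (K →+* ℂ)) : Prop :=
  ∀ σ τ : K →+* Ω, (∀ x, ‖ιp (σ x)‖ = ‖ιp (τ x)‖) → (ιinf.comp σ ∈ S ↔ ιinf.comp τ ∈ S)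

/-- `H` is the subfield of `Ω` cut out by `χ`: the kernel of `χ` is `Gal(Ω/H)`. -/
def CutsOut {K Ω k : Type} [Field K] [Field Ω] [Algebra K Ω] [NormedField k]
    (χ : Chr K Ω k) (H : IntermediateField K Ω) : Prop :=
  ∀ g : Ω ≃ₐ[K] Ω, χ g = 1 ↔ ∀ x ∈ H, g x = x

/-- `h ∈ Gal(H/K)` is the restriction of `g ∈ Gal(Ω/K)`, where `H` is embedded in `Ω` by `j`. -/
def Restricts {K H Ω : Type} [Field K] [Field H] [Field Ω] [Algebra K H] [Algebra K Ω]
    (j : H →+* Ω) (g : Ω ≃ₐ[K] Ω) (h : H ≃ₐ[K] H) : Prop :=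
  ∀ x : H, g (j x) = j (h x)

/-- `H` is an extension of `K`, embedded in `Ω` by `j`; the character `χ` of `Gal(Ω/K)` comes from a
character `χ'` of `Gal(H/K)`, and the map `log_{Σ,p}` is injective on the `χ'`-part
`e_χ'(k ⊗ (𝓞_H)ˣ)` of the units of `H`. -/
def LeopoldtOn {p : ℕ} {K H Ω k : Type} [Field K] [Field H] [Field Ω] [Algebra K H] [Algebra K Ω]
    [NormedField k] (ιinf : Ω →+* ℂ) (ιp : Ω →+* k) (L : IwasawaLog p k) (S : Set (K →+* ℂ))
    (j : H →+* Ω) (χ : Chr K Ω k) : Prop :=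
  ∃ χ' : (H ≃ₐ[K] H) →* kˣ, (∀ (g : Ω ≃ₐ[K] Ω) (h : H ≃ₐ[K] H), Restricts j g h → χ g = χ' h) ∧
    InjectiveOn (finrank K H) χ' unitsHom (logSigma ιinf ιp S L)

/-- The conclusion of the `Σ`-Leopoldt conjecture for the character `χ` of `Gal(Ω/K)`: the field `H`
cut out by `χ` is finite over `K`, and `log_{Σ,p}` is injective on the `χ`-part of its units. -/
def LeopoldtFor {p : ℕ} {K Ω k : Type} [Field K] [Field Ω] [Algebra K Ω] [NormedField k]
    (ιinf : Ω →+* ℂ) (ιp : Ω →+* k) (L : IwasawaLog p k) (S : Set (K →+* ℂ))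
    (χ : Chr K Ω k) : Prop :=
  ∃ H : IntermediateField K Ω, FiniteDimensional K H ∧ CutsOut χ H ∧
    LeopoldtOn ιinf ιp L S (algebraMap H Ω) χ

/-- The conclusion of the `Σ`-Leopoldt conjecture for all the characters `χ₀ φ`, where `φ` cuts out
`N`. -/
def TwistLeopoldt {p : ℕ} {K Ω k : Type} [Field K] [Field Ω] [Algebra K Ω] [NormedField k]
    (ιinf : Ω →+* ℂ) (ιp : Ω →+* k) (L : IwasawaLog p k) (S : Set (K →+* ℂ))
    (χ₀ : Chr K Ω k) (N : IntermediateField K Ω) : Prop :=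
  ∀ φ : Chr K Ω k, CutsOut φ N → LeopoldtFor ιinf ιp L S (χ₀ * φ)

/-- `N/K` is cyclic of degree `q`. -/
def IsCyclicOf (q : ℕ) (K N : Type) [Field K] [Field N] [Algebra K N] : Prop :=
  finrank K N = q ∧ IsGalois K N ∧ IsCyclic (N ≃ₐ[K] N)

/-- A `p`-ordinary CM type of `K` and a character of `Gal(Ω/K)` which cuts out `M`. -/
structure Pair {K Ω k : Type} [Field K] [Field Ω] [Algebra K Ω] [NormedField k]
    (ιinf : Ω →+* ℂ) (ιp : Ω →+* k) (M : IntermediateField K Ω) where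
  /-- the CM type -/
  S : Set (K →+* ℂ)
  /-- the character -/
  χ : Chr K Ω k
  isCMType : IsCMType S
  isOrdinary : IsOrdinary ιinf ιp S
  cutsOut : CutsOut χ M

/-- The pairs have the same CM type, and the character of `D` is the power with exponent `p^r` of
that of `E`, for some `r`. -/
def Pair.SameClass (p : ℕ) {K Ω k : Type} [Field K] [Field Ω] [Algebra K Ω] [NormedField k]
    {ιinf : Ω →+* ℂ} {ιp : Ω →+* k} {M : IntermediateField K Ω} (D E : Pair ιinf ιp M) : Prop :=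
  D.S = E.S ∧ ∃ r : ℕ, D.χ = E.χ ^ p ^ r

end Pool.Agent.Helper38.FD
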