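import Pool.Agent.Helper38.FD.Split
import Pool.Agent.Helper77.PPO.Goals2

/-! The density theorem for twists of order `p`: assembly. -/

namespace Pool.Agent.Helper38.FD

open NumberField Module IsDedekindDomain Pool.Agent.Helper51.SigLeo Pool.Agent.Helper11.PP
open Pool.Agent.Helper77.PPL (TwF D_DENF)
open Pool.Agent.Helper77.PPO (O_DENF)

/-- The common form of `D_DENF` and `O_DENF`. -/
theorem dens_core (hD : D_DENF) (hO : O_DENF) (p : ℕ) [Fact p.Prime] (K : Type) [Field K]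
    [NumberField K] (ιinf : AlgebraicClosure K →+* ℂ) (ιp : AlgebraicClosure K →+* ℂ_[p])
    (L : IwasawaLog p ℂ_[p])
    (M : IntermediateField K (AlgebraicClosure K)) [NumberField M] [IsGalois K M]
    (hcop : (finrank K M).Coprime p)
    (hM : (M = ⊥ ∧ ∀ ξ : K, ¬ IsPrimitiveRoot ξ p) ∨
      ∀ ξ : AlgebraicClosure K, IsPrimitiveRoot ξ p → ¬ M ≤ IntermediateField.adjoin K {ξ})
    (ι : Type) [Nonempty ι] (S : ι → Set (K →+* ℂ)) (χ₀ : ι → ((M ≃ₐ[K] M) →* ℂ_[p]ˣ)) (n : ℕ)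
    (c : ι → Fin n) (h1 : ∀ i, IsCMType (S i)) (h2 : ∀ i, IsOrdinary ιinf ιp (S i))
    (h3 : ∀ i, Function.Injective (χ₀ i))
    (h4 : ∀ i j, c i = c j → S i = S j ∧ ∃ r : ℕ, ∀ g, χ₀ i g = χ₀ j g ^ p ^ r)
    (Q : ℕ) (hQ : Q = p ^ orderOf (p : ZMod (finrank K M))) :
    (∀ X : ℝ, 0 < X → Summable fun N : CycF p K ↦ Real.exp (-(cond K N.1 : ℝ) / X)) ∧
    (∀ η : ℝ, 0 < η → ∀ᶠ X : ℝ in Filter.atTop,
      ∑' N : {N | N ∈ CycF p K ∧ ∃ i, ¬ TwF ιinf ιp L (S i) M (χ₀ i) N},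
        Real.exp (-(cond K N.1 : ℝ) / X) ≤
      ((n : ℝ) * Q / (p * (Q - 1)) + η) * ∑' N : CycF p K, Real.exp (-(cond K N.1 : ℝ) / X)) ∧
    (∀ X : ℕ, {N | N ∈ CycN p K ∧ cond K N ≤ X}.Finite) ∧
    (n * Q < p * (Q - 1) → ∃ c : ℝ, 0 < c ∧ ∀ᶠ X : ℕ in Filter.atTop,
      0 < {N | N ∈ CycN p K ∧ cond K N ≤ X}.ncard ∧
      c * {N | N ∈ CycN p K ∧ cond K N ≤ X}.ncard ≤
        {N | N ∈ CycF p K ∧ cond K N ≤ X ∧ ∀ i, TwF ιinf ιp L (S i) M (χ₀ i) N}.ncard) := by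
  have hp : p.Prime := Fact.out
  rcases hM with ⟨hM, hξ⟩ | hM
  · obtain ⟨a1, a2, a3, a4⟩ := hO p K ιinf ιp L M hM (fun ⟨ξ, h⟩ ↦ hξ ξ h) ι S χ₀ n c h1 h2
      (fun i j hij ↦ (h4 i j hij).1)
    have hm : finrank K M = 1 := by rw [hM]; exact IntermediateField.finrank_bot
    have hQp : Q = p := by
      rw [hQ, hm]
      have : orderOf (p : ZMod 1) = 1 := by
        rw [orderOf_eq_one_iff]; exact Subsingleton.elim _ _
      rw [this, pow_one]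
    have hp0 : (p : ℝ) ≠ 0 := by exact_mod_cast hp.ne_zero
    have hc : (n : ℝ) * Q / (p * (Q - 1)) = n / (p - 1) := by
      rw [hQp, mul_comm (n : ℝ) p]
      exact mul_div_mul_left _ _ hp0
    refine ⟨a1, ?_, a3, ?_⟩
    · rw [hc]; exact a2
    · intro h
      refine a4 ?_
      rw [hQp, mul_comm n p] at h
      have := Nat.lt_of_mul_lt_mul_left h
      omega
  · exact hD p K ιinf ιp L M hcop hM Q hQ ι S χ₀ n c h1 h2 h3 h4

theorem main_density' (hD : D_DENF) (hO : O_DENF) (p : ℕ) [Fact p.Prime] (K : Type) [Field K]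
    [NumberField K] (ιinf : AlgebraicClosure K →+* ℂ) (ιp : AlgebraicClosure K →+* ℂ_[p])
    (L : IwasawaLog p ℂ_[p])
    (M : IntermediateField K (AlgebraicClosure K)) [FiniteDimensional K M]
    (hcop : (finrank K M).Coprime p)
    (hM : (M = ⊥ ∧ ∀ ξ : K, ¬ IsPrimitiveRoot ξ p) ∨
      ∀ ξ : AlgebraicClosure K, IsPrimitiveRoot ξ p → ¬ M ≤ IntermediateField.adjoin K {ξ})
    (ι : Type) [hι : Nonempty ι] (D : ι → Pair ιinf ιp M) (n : ℕ) (c : ι → Fin n)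
    (hc : ∀ i j, c i = c j → (D i).SameClass p (D j))
    (Q : ℕ) (hQ : Q = p ^ orderOf (p : ZMod (finrank K M))) :
    (∀ X : ℝ, 0 < X → Summable fun N : CycF p K ↦ Real.exp (-(cond K N.1 : ℝ) / X)) ∧
    (∀ X : ℕ, {N | N ∈ CycN p K ∧ cond K N ≤ X}.Finite) ∧
    (∀ η : ℝ, 0 < η → ∀ᶠ X : ℝ in Filter.atTop,
      expSum {N | N ∈ CycF p K ∧ ∃ i, ¬ (D i).Good L N} X ≤
        ((n : ℝ) * Q / (p * (Q - 1)) + η) * expSum (CycF p K) X) ∧
    (n * Q < p * (Q - 1) → ∃ δ : ℝ, 0 < δ ∧ ∀ᶠ X : ℕ in Filter.atTop,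
      0 < count (CycN p K) X ∧
      δ * count (CycN p K) X ≤ count {N | N ∈ CycF p K ∧ ∀ i, (D i).Good L N} X) := by
  have hp : p.Prime := Fact.out
  have i₀ : ι := Classical.choice hι
  have i1 : FiniteDimensional ℚ M := FiniteDimensional.trans ℚ K M
  have i2 : NumberField M := { to_charZero := inferInstance, to_finiteDimensional := i1 }
  have i3 : IsGalois K M := isGalois_of_cutsOut (D i₀).cutsOut
  choose χM hinj hχM using fun i ↦ exists_faithful (D i).cutsOut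
  obtain ⟨a1, a2, a3, a4⟩ := dens_core hD hO p K ιinf ιp L M hcop hM ι (fun i ↦ (D i).S) χM n c
    (fun i ↦ (D i).isCMType) (fun i ↦ (D i).isOrdinary) hinj (by
      intro i j hij
      obtain ⟨hS, r, hr⟩ := hc i j hij
      refine ⟨hS, r, fun a ↦ ?_⟩
      obtain ⟨g, hg⟩ := exists_lift a
      rw [← hχM i g a hg, ← hχM j g a hg, hr]
      rfl) Q hQ
  have key : ∀ N ∈ CycF p K, ∀ i, TwF ιinf ιp L (D i).S M (χM i) N → (D i).Good L N :=
    fun N hN i h ↦ good_of_twF L (D i) (χM i) (hχM i) N (by rw [hN.1]; exact hp.pos) h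
  refine ⟨a1, a3, ?_, ?_⟩
  · intro η hη
    filter_upwards [a2 η hη, Filter.eventually_gt_atTop (0 : ℝ)] with X hX hX0
    refine le_trans ?_ hX
    have hsub : {N | N ∈ CycF p K ∧ ∃ i, ¬ (D i).Good L N} ⊆
        {N | N ∈ CycF p K ∧ ∃ i, ¬ TwF ιinf ιp L (D i).S M (χM i) N} := by
      rintro N ⟨hN, i, hi⟩
      exact ⟨hN, i, fun h ↦ hi (key N hN i h)⟩
    have hs2 : Summable fun N : {N | N ∈ CycF p K ∧ ∃ i, ¬ TwF ιinf ιp L (D i).S M (χM i) N} ↦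
        Real.exp (-(cond K N.1 : ℝ) / X) :=
      (a1 X hX0).comp_injective (i := fun N : {N | N ∈ CycF p K ∧
        ∃ i, ¬ TwF ιinf ιp L (D i).S M (χM i) N} ↦ (⟨N.1, N.2.1⟩ : CycF p K)) (by
          intro a b h
          apply Subtype.ext
          exact congrArg (fun z : CycF p K ↦ z.1) h)
    have hs1 : Summable fun N : {N | N ∈ CycF p K ∧ ∃ i, ¬ (D i).Good L N} ↦
        Real.exp (-(cond K N.1 : ℝ) / X) :=
      hs2.comp_injective (i := Set.inclusion hsub) (Set.inclusion_injective hsub)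
    exact hs1.tsum_le_tsum_of_inj (Set.inclusion hsub) (Set.inclusion_injective hsub)
      (fun _ _ ↦ (Real.exp_pos _).le) (fun _ ↦ le_rfl) hs2
  · intro h
    obtain ⟨δ, hδ, h5⟩ := a4 h
    refine ⟨δ, hδ, ?_⟩
    filter_upwards [h5] with X hX
    refine ⟨by unfold count; exact_mod_cast hX.1, hX.2.trans ?_⟩
    have hsub : {N | N ∈ CycF p K ∧ cond K N ≤ X ∧ ∀ i, TwF ιinf ιp L (D i).S M (χM i) N} ⊆
        {N | N ∈ {N | N ∈ CycF p K ∧ ∀ i, (D i).Good L N} ∧ cond K N ≤ X} := by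
      rintro N ⟨hN, hX, hi⟩
      exact ⟨⟨hN, fun i ↦ key N hN i (hi i)⟩, hX⟩
    have hfin : {N | N ∈ {N | N ∈ CycF p K ∧ ∀ i, (D i).Good L N} ∧ cond K N ≤ X}.Finite :=
      (a3 X).subset fun N hN ↦ ⟨⟨hN.1.1.1, hN.1.1.2.1⟩, hN.2⟩
    unfold count
    exact_mod_cast Set.ncard_le_ncard hsub hfin

end Pool.Agent.Helper38.FD
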