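import Pool.Agent.Helper38.FD.Defs
import Pool.Agent.Helper11.PP.DefsD

/-!
# The density theorem for twists of order `p` (MP_fc6b1e_nt): definitions

`Ab V v`: the prime `V` is above `v`; `RamIn N v`: `v` is ramified in `N`; `SplitsIn n N v`: there are
exactly `n` primes of `N` above `v`; `cond K N`: the product of the norms of the primes of `K` ramified
in `N`; `CycN p K`: the cyclic extensions of `K` of degree `p`; `CycF p K`: those in which the primes
above `p` split completely. See `Pool/Agent/Helper11/PP/DefsD.lean`.
-/

namespace Pool.Agent.Helper38.FD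

open NumberField Module IsDedekindDomain Pool.Agent.Helper51.SigLeo Pool.Agent.Helper11.PP

/-- `E/K` is of `p`-power degree and does not contain `N`; the primes above `p` and the primes ramified
in `N` split completely in `E`; the primes which split completely in `M` are unramified in `E`. -/
structure Companion (p : ℕ) {K : Type} [Field K]
    (M N E : IntermediateField K (AlgebraicClosure K)) : Prop where
  deg : ∃ a : ℕ, finrank K E = p ^ a
  not_le : ¬ N ≤ E
  split : ∀ v : HeightOneSpectrum (𝓞 K), (p : 𝓞 K) ∈ v.asIdeal ∨ RamIn N v →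
    SplitsIn (finrank K E) E v
  unr : ∀ v : HeightOneSpectrum (𝓞 K), SplitsIn (finrank K M) M v → ¬ RamIn E v

/-- `N` is good for the pair `D`: the `Σ`-Leopoldt conjecture holds for all the characters `χ φ ψ`, `φ`
a character which cuts out `N`, `ψ` a character which cuts out a companion `E` of `N` (for instance
`ψ = 1`). -/
def Pair.Good {p : ℕ} [Fact p.Prime] {K : Type} [Field K]
    {ιinf : AlgebraicClosure K →+* ℂ} {ιp : AlgebraicClosure K →+* ℂ_[p]}
    {M : IntermediateField K (AlgebraicClosure K)} (L : IwasawaLog p ℂ_[p]) (D : Pair ιinf ιp M)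
    (N : IntermediateField K (AlgebraicClosure K)) : Prop :=
  ∀ (E : IntermediateField K (AlgebraicClosure K)) (φ ψ : Chr K (AlgebraicClosure K) ℂ_[p]),
    Companion p M N E → CutsOut φ N → CutsOut ψ E → LeopoldtFor ιinf ιp L D.S (D.χ * φ * ψ)

/-- The number of the `N` in `A` with `cond K N ≤ X`. -/
noncomputable def count {K : Type} [Field K] [NumberField K]
    (A : Set (IntermediateField K (AlgebraicClosure K))) (X : ℕ) : ℝ :=
  {N | N ∈ A ∧ cond K N ≤ X}.ncard

/-- The sum of `exp (-cond K N / X)` over the `N` in `A`. -/
noncomputable def expSum {K : Type} [Field K] [NumberField K]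
    (A : Set (IntermediateField K (AlgebraicClosure K))) (X : ℝ) : ℝ :=
  ∑' N : A, Real.exp (-(cond K N.1 : ℝ) / X)

end Pool.Agent.Helper38.FD
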