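import Pool.Agent.Helper38.FD.Dens
import Pool.Agent.Helper77.PPL.Asm1

/-! The density theorem for twists of order `p`. -/

namespace Pool.Agent.Helper38.FD

open NumberField Module IsDedekindDomain Pool.Agent.Helper51.SigLeo Pool.Agent.Helper11.PP

theorem main_density (p : ℕ) [Fact p.Prime] (K : Type) [Field K]
    [NumberField K] (ιinf : AlgebraicClosure K →+* ℂ) (ιp : AlgebraicClosure K →+* ℂ_[p])
    (L : IwasawaLog p ℂ_[p])
    (M : IntermediateField K (AlgebraicClosure K)) [FiniteDimensional K M]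
    (hcop : (finrank K M).Coprime p)
    (hM : (M = ⊥ ∧ ∀ ξ : K, ¬ IsPrimitiveRoot ξ p) ∨
      ∀ ξ : AlgebraicClosure K, IsPrimitiveRoot ξ p → ¬ M ≤ IntermediateField.adjoin K {ξ})
    (ι : Type) [Nonempty ι] (D : ι → Pair ιinf ιp M) (n : ℕ) (c : ι → Fin n)
    (hc : ∀ i j, c i = c j → (D i).SameClass p (D j))
    (Q : ℕ) (hQ : Q = p ^ orderOf (p : ZMod (finrank K M))) :
    (∀ X : ℝ, 0 < X → Summable fun N : CycF p K ↦ Real.exp (-(cond K N.1 : ℝ) / X)) ∧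
    (∀ X : ℕ, {N | N ∈ CycN p K ∧ cond K N ≤ X}.Finite) ∧
    (∀ η : ℝ, 0 < η → ∀ᶠ X : ℝ in Filter.atTop,
      expSum {N | N ∈ CycF p K ∧ ∃ i, ¬ (D i).Good L N} X ≤
        ((n : ℝ) * Q / (p * (Q - 1)) + η) * expSum (CycF p K) X) ∧
    (n * Q < p * (Q - 1) → ∃ δ : ℝ, 0 < δ ∧ ∀ᶠ X : ℕ in Filter.atTop,
      0 < count (CycN p K) X ∧
      δ * count (CycN p K) X ≤ count {N | N ∈ CycF p K ∧ ∀ i, (D i).Good L N} X) :=
  main_density' Pool.Agent.Helper77.PPL.a_denf Pool.Agent.Helper77.PPL.a_denf1 p K ιinf ιp L M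
    hcop hM ι D n c hc Q hQ

end Pool.Agent.Helper38.FD
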