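import Pool.Agent.Helper38.FD.Twist
import Pool.Agent.Helper77.RL.Asm

/-! Twists of order `p^n`: the final form. -/

namespace Pool.Agent.Helper38.FD

open NumberField Module Pool.Agent.Helper51.SigLeo Pool.Agent.Helper77.RL

theorem main_ppw (p : ℕ) [Fact p.Prime] (K : Type) [Field K] [NumberField K]
    (ιinf : AlgebraicClosure K →+* ℂ) (ιp : AlgebraicClosure K →+* ℂ_[p])
    (L : IwasawaLog p ℂ_[p])
    (M : IntermediateField K (AlgebraicClosure K)) [FiniteDimensional K M]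
    (hcop : (finrank K M).Coprime p)
    (hM : ∀ ξ : AlgebraicClosure K, IsPrimitiveRoot ξ p → ¬ M ≤ IntermediateField.adjoin K {ξ})
    (ι : Type) [hι : Nonempty ι] (D : ι → Pair ιinf ιp M) (c : ι → Fin p)
    (hc : ∀ i j, c i = c j → (D i).SameClass p (D j)) (n : ℕ) (hn : 1 ≤ n) :
    {N : IntermediateField K (AlgebraicClosure K) | IsCyclicOf (p ^ n) K N ∧
      ∀ i, TwistLeopoldt ιinf ιp L (D i).S (D i).χ N}.Infinite := by
  have i₀ : ι := Classical.choice hι
  have i1 : FiniteDimensional ℚ M := FiniteDimensional.trans ℚ K M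
  have i2 : NumberField M := { to_charZero := inferInstance, to_finiteDimensional := i1 }
  have i3 : IsGalois K M := isGalois_of_cutsOut (D i₀).cutsOut
  choose χM hinj hχM using fun i ↦ exists_faithful (D i).cutsOut
  refine Set.Infinite.mono ?_ (l_ppw p K ιinf ιp L M hcop hM ι (fun i ↦ (D i).S) χM c
    (fun i ↦ (D i).isCMType) (fun i ↦ (D i).isOrdinary) hinj ?_ n hn)
  · rintro N ⟨h1, h2, h3, h4⟩
    exact ⟨⟨h1, h2, h3⟩, fun i ↦ twist_of_goodN ιinf ιp L (D i).S M (D i).χ (D i).cutsOut (χM i)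
      (hχM i) N hcop h1 (h4 i)⟩
  · intro i j hij
    obtain ⟨hS, r, hr⟩ := hc i j hij
    refine ⟨hS, r, fun a ↦ ?_⟩
    obtain ⟨g, hg⟩ := exists_lift a
    rw [← hχM i g a hg, ← hχM j g a hg, hr]
    rfl

end Pool.Agent.Helper38.FD
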