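import Pool.Agent.Helper38.FD.Defs
import Pool.Agent.Helper11.PP.DefsD

/-!
# The density theorem for general base characters, natural density (MP_fc6b1e_nt): definitions

`Ω` is the algebraic closure of the number field `K`. `Ab V v`: the prime `V` is above `v`; `RamIn N v`: `v`
is ramified in `N`; `SplitsIn n N v`: there are exactly `n` primes of `N` above `v`; `cond K N`: the product of
the norms of the primes of `K` ramified in `N`; `CycN p K`: the cyclic extensions of `K` of degree `p`; `CycF p K`:
those in which the primes above `p` split completely. See `Pool/Agent/Helper11/PP/DefsD.lean`.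
-/

namespace Pool.Agent.Helper38.FD

open NumberField Module IsDedekindDomain Pool.Agent.Helper51.SigLeo Pool.Agent.Helper11.PP

/-- The character `χ` is congruent to the cyclotomic character `ω` modulo the maximal ideal: if `g` acts on
the `p`-th roots of unity as `ξ ↦ ξ^r`, then `|χ(g) - r| < 1`. -/
def IsOmega {p : ℕ} [Fact p.Prime] {K : Type} [Field K]
    (χ : Chr K (AlgebraicClosure K) ℂ_[p]) : Prop :=
  ∀ (g : AlgebraicClosure K ≃ₐ[K] AlgebraicClosure K) (r : ℕ),
    (∀ ξ : AlgebraicClosure K, ξ ^ p = 1 → g ξ = ξ ^ r) → ‖((χ g : ℂ_[p]ˣ) : ℂ_[p]) - r‖ < 1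

/-- A base character `χ ψ`, with a `p`-ordinary CM type `S`: `χ` cuts out the field `M`, of degree prime
to `p`, and is not congruent to `ω`; `ψ` cuts out the field `F`, of `p`-power degree, in which the primes above
`p` split completely. If some `χ^(1 + p^j)` is congruent to `ω`, then `M` is not contained in `K(μ_p)` or the
degree of `F` is at least `p²`. -/
structure BaseChr {p : ℕ} [Fact p.Prime] {K : Type} [Field K] [NumberField K]
    (ιinf : AlgebraicClosure K →+* ℂ) (ιp : AlgebraicClosure K →+* ℂ_[p]) where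
  /-- the CM type -/
  S : Set (K →+* ℂ)
  /-- the character of order prime to `p` -/
  χ : Chr K (AlgebraicClosure K) ℂ_[p]
  /-- the character of `p`-power order -/
  ψ : Chr K (AlgebraicClosure K) ℂ_[p]
  /-- the field of `χ` -/
  M : IntermediateField K (AlgebraicClosure K)
  /-- the field of `ψ` -/
  F : IntermediateField K (AlgebraicClosure K)
  isCMType : IsCMType S
  isOrdinary : IsOrdinary ιinf ιp S
  cutsOutM : CutsOut χ M
  cutsOutF : CutsOut ψ F
  coprime : (finrank K M).Coprime p
  degree : ∃ l : ℕ, finrank K F = p ^ l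
  split : ∀ v : HeightOneSpectrum (𝓞 K), (p : 𝓞 K) ∈ v.asIdeal → SplitsIn (finrank K F) F v
  not_omega : ¬ IsOmega χ
  large : (∃ j : ℕ, IsOmega (χ ^ (1 + p ^ j))) → p ^ 2 ≤ finrank K F ∨
    ∀ ξ : AlgebraicClosure K, IsPrimitiveRoot ξ p → ¬ M ≤ IntermediateField.adjoin K {ξ}

open Classical in
/-- The constant of the base character: let `Q = p^f`, `f` the order of `p` modulo `[M : K]`. It is
`Q/(p (Q - 1))` if some `χ^(1 + p^j)` is congruent to `ω`, and `1/(Q - 1)` otherwise. -/
noncomputable def BaseChr.theta {p : ℕ} [Fact p.Prime] {K : Type} [Field K] [NumberField K]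
    {ιinf : AlgebraicClosure K →+* ℂ} {ιp : AlgebraicClosure K →+* ℂ_[p]}
    (D : BaseChr ιinf ιp) : ℝ :=
  if ∃ j : ℕ, IsOmega (D.χ ^ (1 + p ^ j)) then
    (p : ℝ) ^ orderOf (p : ZMod (finrank K D.M)) /
      (p * ((p : ℝ) ^ orderOf (p : ZMod (finrank K D.M)) - 1))
  else 1 / ((p : ℝ) ^ orderOf (p : ZMod (finrank K D.M)) - 1)

/-- `E/K` is of `p`-power degree; the primes above `p` and the primes ramified in `N` or in `F` split
completely in `E`; the primes which split completely in `M` are unramified in `E`. -/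
structure CompanionOf (p : ℕ) {K : Type} [Field K]
    (M F N E : IntermediateField K (AlgebraicClosure K)) : Prop where
  deg : ∃ l : ℕ, finrank K E = p ^ l
  split : ∀ v : HeightOneSpectrum (𝓞 K), (p : 𝓞 K) ∈ v.asIdeal ∨ RamIn N v ∨ RamIn F v →
    SplitsIn (finrank K E) E v
  unr : ∀ v : HeightOneSpectrum (𝓞 K), SplitsIn (finrank K M) M v → ¬ RamIn E v

/-- The cyclic extensions `N` of degree `p` of `K`, with a character `φ` which cuts out `N`. -/
def AllChr (p : ℕ) [Fact p.Prime] (K : Type) [Field K] :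
    Set (IntermediateField K (AlgebraicClosure K) × Chr K (AlgebraicClosure K) ℂ_[p]) :=
  {x | x.1 ∈ CycN p K ∧ CutsOut x.2 x.1}

/-- The `(N, φ)` such that the primes above `p` split completely in `N`. -/
def SplitChr (p : ℕ) [Fact p.Prime] (K : Type) [Field K] :
    Set (IntermediateField K (AlgebraicClosure K) × Chr K (AlgebraicClosure K) ℂ_[p]) :=
  {x | x.1 ∈ CycF p K ∧ CutsOut x.2 x.1}

/-- `(N, φ)` is good for the base character `χ ψ` if the `Σ`-Leopoldt conjecture holds for all the
characters `χ^(p^r) ψ φ ξ`, where `ξ` cuts out a companion `E` (for instance `ξ = 1`, `E = K`). -/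
def BaseChr.Good {p : ℕ} [Fact p.Prime] {K : Type} [Field K] [NumberField K]
    {ιinf : AlgebraicClosure K →+* ℂ} {ιp : AlgebraicClosure K →+* ℂ_[p]}
    (D : BaseChr ιinf ιp) (L : IwasawaLog p ℂ_[p])
    (x : IntermediateField K (AlgebraicClosure K) × Chr K (AlgebraicClosure K) ℂ_[p]) : Prop :=
  ∀ (r : ℕ) (E : IntermediateField K (AlgebraicClosure K)) (ξ : Chr K (AlgebraicClosure K) ℂ_[p]),
    CompanionOf p D.M D.F x.1 E → CutsOut ξ E →
    LeopoldtFor ιinf ιp L D.S (D.χ ^ p ^ r * D.ψ * x.2 * ξ)

/-- The number of the `(N, φ)` in `A` with `cond K N ≤ X`. -/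
noncomputable def countChr {p : ℕ} [Fact p.Prime] {K : Type} [Field K] [NumberField K]
    (A : Set (IntermediateField K (AlgebraicClosure K) × Chr K (AlgebraicClosure K) ℂ_[p]))
    (X : ℕ) : ℝ :=
  {x | x ∈ A ∧ cond K x.1 ≤ X}.ncard

end Pool.Agent.Helper38.FD
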